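import Mathlib

namespace Pool.Agent.Snake
open Polynomial

lemma T3 : Polynomial.Chebyshev.T ℝ 3 = 4 * X ^ 3 - 3 * X := by
  have h := Polynomial.Chebyshev.T_add_two ℝ 1
  norm_num at h
  rw [h, Polynomial.Chebyshev.T_two]; ring

lemma T4 : Polynomial.Chebyshev.T ℝ 4 = 8 * X ^ 4 - 8 * X ^ 2 + 1 := by
  have h := Polynomial.Chebyshev.T_add_two ℝ 2
  norm_num at h
  rw [h, T3, Polynomial.Chebyshev.T_two]; ring

noncomputable def P : Polynomial ℝ := C (567 / 50) * X ^ 4 - C (531 / 50) * X ^ 2 + C 1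

lemma P_eval (x : ℝ) : P.eval x = 567 / 50 * x ^ 4 - 531 / 50 * x ^ 2 + 1 := by
  simp [P]

noncomputable def μ (x : ℝ) : ℝ := 1 + 18 / 25 * |x|

noncomputable def pts : Fin 5 → ℝ := ![-1, -2/3, 0, 2/3, 1]

theorem main : ¬ (∀ (μ : ℝ → ℝ), ContinuousOn μ (Set.Icc (-1) 1) →
      ConvexOn ℝ (Set.Icc (-1) 1) μ →
      (∀ x ∈ Set.Icc (-1 : ℝ) 1, μ (-x) = μ x) →
      (∀ x ∈ Set.Icc (-1 : ℝ) 1, 0 ≤ μ x) →
      ∀ (n : ℕ) (p : Polynomial ℝ), p.natDegree ≤ n →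
        (∀ x ∈ Set.Icc (-1 : ℝ) 1, |p.eval x| ≤ μ x) →
        (∃ τ : Fin (n + 1) → ℝ, StrictMono τ ∧ (∀ i, τ i ∈ Set.Icc (-1 : ℝ) 1) ∧
          ∀ i, p.eval (τ i) = (-1 : ℝ) ^ (n - (i : ℕ)) * μ (τ i)) →
        ∃ c : ℕ → ℝ, (∀ j, 0 ≤ c j) ∧
          p = ∑ j ∈ Finset.range (n + 1),
            Polynomial.C (c j) * Polynomial.Chebyshev.T ℝ (j : ℤ)) := by
  intro h
  have h1 := h μ ?_ ?_ ?_ ?_ 4 P ?_ ?_ ?_
  · obtain ⟨c, hc, hp⟩ := h1
    have e : ∀ x : ℝ, P.eval x = c 0 + c 1 * x + c 2 * (2 * x ^ 2 - 1) + c 3 * (4 * x ^ 3 - 3 * x) +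
        c 4 * (8 * x ^ 4 - 8 * x ^ 2 + 1) := by
      intro x
      rw [hp]
      simp only [Finset.sum_range_succ, Finset.sum_range_zero, Nat.cast_zero, Nat.cast_one, Nat.cast_ofNat,
        Polynomial.Chebyshev.T_zero, Polynomial.Chebyshev.T_one, Polynomial.Chebyshev.T_two, T3, T4]
      simp
    have e1 := e 1
    have e2 := e (-1)
    have e3 := e (1 / 2)
    have e4 := e (-1 / 2)
    rw [P_eval] at e1 e2 e3 e4
    have := hc 0
    nlinarith
  · unfold μ; fun_prop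
  · refine ⟨convex_Icc _ _, ?_⟩
    intro x _ y _ a b ha hb hab
    unfold μ
    simp only [smul_eq_mul]
    have h1 : |a * x + b * y| ≤ a * |x| + b * |y| := by
      refine (abs_add_le _ _).trans ?_
      rw [abs_mul, abs_mul, abs_of_nonneg ha, abs_of_nonneg hb]
    have : a * (1 + 18 / 25 * |x|) + b * (1 + 18 / 25 * |y|) = (a + b) + 18 / 25 * (a * |x| + b * |y|) := by ring
    rw [this, hab]
    linarith
  · intro x _; unfold μ; rw [abs_neg]
  · intro x _; unfold μ; positivity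
  · unfold P; compute_degree
  · intro x hx
    have hx1 : |x| ≤ 1 := abs_le.2 ⟨hx.1, hx.2⟩
    have hx0 : 0 ≤ |x| := abs_nonneg x
    rw [P_eval]
    have s2 : x ^ 2 = |x| ^ 2 := (sq_abs x).symm
    have s4 : x ^ 4 = |x| ^ 4 := by rw [show x ^ 4 = (x ^ 2) ^ 2 by ring, s2]; ring
    rw [s2, s4]
    unfold μ
    generalize |x| = y at hx0 hx1
    rw [abs_le]
    constructor
    · have h1 : 0 ≤ (y - 2 / 3) ^ 2 * (y ^ 2 + 4 / 3 * y + 25 / 63) := by positivity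
      nlinarith
    · have h1 : 0 ≤ y ^ 2 * (1 - y ^ 2) := by
        apply mul_nonneg (sq_nonneg _); nlinarith
      have h2 : 0 ≤ y * (1 - y) := mul_nonneg hx0 (by linarith)
      nlinarith
  · refine ⟨pts, ?_, ?_, ?_⟩
    · rw [Fin.strictMono_iff_lt_succ]
      intro i
      fin_cases i <;> simp [pts] <;> norm_num
    · intro i
      fin_cases i <;> simp [pts] <;> norm_num
    · intro i
      rw [P_eval]
      unfold μ
      fin_cases i <;> simp [pts] <;> norm_num [abs_of_neg, abs_of_pos]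

end Pool.Agent.Snake
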